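import Mathlib

/-!
# A non-normal density satisfying the hyperplane integral condition

We answer Q1 of MP_d643ae_pr in the negative. There is one everywhere positive, real-analytic
probability density `f` that is not normal and such that, for every `n ≥ 1` (in particular every
`n ≥ 3`) and every real `c`, some everywhere positive, real-analytic probability density `g`
satisfies `∫ (u - c) g(u) ∏ f (x j - u) du = 0` on the whole hyperplane `∑ x j = 0`.

The example is `f x = C exp (-x²/2) (2 + cos (2 π x))` and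
`g u = C' exp (n u²/2 - n (u - c)²) sinh (n (u - c)) / (u - c)`.

Reason: on the hyperplane, `∏ f (x j - u) = C(x) exp (-n u²/2) Q(u)` with `Q` of period `1`, and
`(u - c) g(u) exp (-n u²/2)` is a constant times `exp (-n (u - c - 1/2)²) - exp (-n (u - c + 1/2)²)`,
that is, a function minus its translate by `1`.
-/

open MeasureTheory ProbabilityTheory Real

namespace Pool.Agent.Results.MP_d643ae_pr.NotNormal

/-- A probability density on `ℝ`: a nonnegative Lebesgue-integrable function with integral `1`. -/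
def IsProbDensity (f : ℝ → ℝ) : Prop :=
  (∀ x, 0 ≤ f x) ∧ Integrable f ∧ ∫ x, f x = 1

/-- Condition `(∗)`: for every `x ∈ ℝⁿ` with `∑ x j = 0` the function
`u ↦ (u - c) g(u) ∏ j, f (x j - u)` is Lebesgue integrable and its integral is `0`. -/
def HyperplaneCondition (n : ℕ) (c : ℝ) (f g : ℝ → ℝ) : Prop :=
  ∀ x : Fin n → ℝ, ∑ j, x j = 0 →
    Integrable (fun u => (u - c) * g u * ∏ j, f (x j - u)) ∧
      ∫ u, (u - c) * g u * ∏ j, f (x j - u) = 0

/-! ### The periodic factor -/

/-- The 1-periodic factor. -/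
noncomputable def per (x : ℝ) : ℝ := 2 + cos (2 * π * x)

lemma per_pos (x : ℝ) : 0 < per x := by
  have := neg_one_le_cos (2 * π * x)
  unfold per; linarith

lemma per_le (x : ℝ) : per x ≤ 3 := by
  have := cos_le_one (2 * π * x)
  unfold per; linarith

lemma per_sub_one (x : ℝ) : per (x - 1) = per x := by
  unfold per
  have : 2 * π * (x - 1) = 2 * π * x - 2 * π := by ring
  rw [this, cos_sub_two_pi]

lemma per_continuous : Continuous per := by
  unfold per; fun_prop

/-! ### The function `sinh (n t) / t` -/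

/-- `sinh (n t) / t`, with the value `n` at `t = 0`, as a divided slope. -/
noncomputable def shc (n : ℝ) : ℝ → ℝ := dslope (fun t => sinh (n * t)) 0

lemma mul_shc (n t : ℝ) : t * shc n t = sinh (n * t) := by
  have h := sub_smul_dslope (fun t => sinh (n * t)) 0 t
  simpa [shc] using h

lemma shc_zero (n : ℝ) : shc n 0 = n := by
  have h : HasDerivAt (fun t => sinh (n * t)) (cosh (n * 0) * (n * 1)) 0 :=
    ((hasDerivAt_id' (0 : ℝ)).const_mul n).sinh
  simp only [shc, dslope_same]
  rw [h.deriv]; simp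

lemma shc_of_ne (n : ℝ) {t : ℝ} (ht : t ≠ 0) : shc n t = sinh (n * t) / t := by
  rw [← mul_shc n t]; field_simp

lemma shc_pos {n : ℝ} (hn : 0 < n) (t : ℝ) : 0 < shc n t := by
  rcases lt_trichotomy t 0 with h | h | h
  · rw [shc_of_ne n h.ne]
    exact div_pos_of_neg_of_neg (by rw [Real.sinh_neg_iff]; nlinarith) h
  · rw [h, shc_zero]; exact hn
  · rw [shc_of_ne n h.ne']
    exact div_pos (by rw [Real.sinh_pos_iff]; positivity) h

lemma shc_analytic (n t : ℝ) : AnalyticAt ℝ (shc n) t := by
  by_cases ht : t = 0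
  · subst ht
    have h : AnalyticAt ℝ (fun t => sinh (n * t)) 0 := by fun_prop
    obtain ⟨p, hp⟩ := h
    exact ⟨_, hp.has_fpower_series_dslope_fslope⟩
  · have h1 : AnalyticAt ℝ (fun t => sinh (n * t) / t) t := by
      apply AnalyticAt.div (by fun_prop) (by fun_prop) ht
    apply h1.congr
    filter_upwards [isOpen_ne.mem_nhds ht] with s hs
    exact (shc_of_ne n hs).symm

lemma shc_continuous (n : ℝ) : Continuous (shc n) :=
  continuous_iff_continuousAt.2 fun t => (shc_analytic n t).continuousAt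

lemma cosh_le_exp_add (x : ℝ) : cosh x ≤ exp x + exp (-x) := by
  rw [cosh_eq]; linarith [exp_pos x, exp_pos (-x)]

/-- `sinh x ≤ x cosh x` for `x ≥ 0`. -/
lemma sinh_le_mul_cosh {x : ℝ} (hx : 0 ≤ x) : sinh x ≤ x * cosh x := by
  have hmono : MonotoneOn (fun x => x * cosh x - sinh x) (Set.Ici 0) := by
    apply monotoneOn_of_deriv_nonneg (convex_Ici 0)
    · fun_prop
    · fun_prop
    · intro y hy
      simp only [interior_Ici, Set.mem_Ioi] at hy
      have h : HasDerivAt (fun x => x * cosh x - sinh x)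
          ((1 * cosh y + y * sinh y) - cosh y) y :=
        ((hasDerivAt_id' y).mul (hasDerivAt_cosh y)).sub (hasDerivAt_sinh y)
      rw [h.deriv]
      have : 0 < sinh y := by rw [Real.sinh_pos_iff]; exact hy
      nlinarith
  have := hmono (Set.mem_Ici.2 le_rfl) (Set.mem_Ici.2 hx) hx
  simp at this
  linarith

lemma shc_le {n : ℝ} (hn : 0 < n) (t : ℝ) : shc n t ≤ n * (exp (n * t) + exp (-(n * t))) := by
  have hc : n * cosh (n * t) ≤ n * (exp (n * t) + exp (-(n * t))) :=
    mul_le_mul_of_nonneg_left (cosh_le_exp_add _) hn.le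
  refine le_trans ?_ hc
  rcases lt_trichotomy t 0 with h | h | h
  · rw [shc_of_ne n h.ne, div_le_iff_of_neg h]
    have h1 := sinh_le_mul_cosh (x := -(n * t)) (by nlinarith)
    rw [sinh_neg, cosh_neg] at h1
    nlinarith
  · rw [h, shc_zero]; simp
  · rw [shc_of_ne n h.ne', div_le_iff₀ h]
    have h1 := sinh_le_mul_cosh (x := n * t) (by positivity)
    nlinarith

/-! ### Unnormalised densities -/

/-- The unnormalised density `exp (-x²/2) (2 + cos (2 π x))`. -/
noncomputable def F (x : ℝ) : ℝ := exp (-x ^ 2 / 2) * per x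

/-- The unnormalised density `exp (n u²/2 - n (u - c)²) sinh (n (u - c)) / (u - c)`. -/
noncomputable def G (n c : ℝ) (u : ℝ) : ℝ :=
  exp (n * u ^ 2 / 2 - n * (u - c) ^ 2) * shc n (u - c)

lemma F_pos (x : ℝ) : 0 < F x := mul_pos (exp_pos _) (per_pos x)

lemma G_pos {n : ℝ} (hn : 0 < n) (c u : ℝ) : 0 < G n c u := mul_pos (exp_pos _) (shc_pos hn _)

lemma F_analytic (x : ℝ) : AnalyticAt ℝ F x := by
  unfold F per; fun_prop

lemma G_analytic (n c u : ℝ) : AnalyticAt ℝ (G n c) u := by
  have h1 : AnalyticAt ℝ (fun u => shc n (u - c)) u :=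
    AnalyticAt.fun_comp (f := fun u => u - c) (shc_analytic n (u - c)) (by fun_prop)
  unfold G
  fun_prop

lemma F_continuous : Continuous F :=
  continuous_iff_continuousAt.2 fun x => (F_analytic x).continuousAt

lemma G_continuous (n c : ℝ) : Continuous (G n c) :=
  continuous_iff_continuousAt.2 fun x => (G_analytic n c x).continuousAt

/-- Shifted Gaussians are integrable. -/
lemma integrable_gauss {b : ℝ} (hb : 0 < b) (a : ℝ) :
    Integrable (fun t => exp (-b * (t - a) ^ 2)) :=
  (integrable_exp_neg_mul_sq hb).comp_sub_right a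

lemma F_integrable : Integrable F := by
  have h1 : Integrable (fun t : ℝ => exp (-(1 / 2) * (t - 0) ^ 2) * 3) :=
    (integrable_gauss (by norm_num) 0).mul_const 3
  refine h1.mono' F_continuous.aestronglyMeasurable (Filter.Eventually.of_forall fun t => ?_)
  rw [Real.norm_eq_abs, abs_of_pos (F_pos t)]
  unfold F
  have : -(1 / 2) * (t - 0) ^ 2 = -t ^ 2 / 2 := by ring
  rw [this]
  exact mul_le_mul_of_nonneg_left (per_le t) (exp_pos _).le

lemma G_integrable {n : ℝ} (hn : 0 < n) (c : ℝ) : Integrable (G n c) := by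
  have h1 : Integrable (fun u : ℝ => n * exp (n / 2 + n * c ^ 2 + n * c) *
      exp (-(n / 2) * (u - (2 * c + 1)) ^ 2) + n * exp (n / 2 + n * c ^ 2 - n * c) *
      exp (-(n / 2) * (u - (2 * c - 1)) ^ 2)) :=
    ((integrable_gauss (by positivity) _).const_mul _).add
      ((integrable_gauss (by positivity) _).const_mul _)
  refine h1.mono' (G_continuous n c).aestronglyMeasurable (Filter.Eventually.of_forall fun u => ?_)
  rw [Real.norm_eq_abs, abs_of_pos (G_pos hn c u)]
  unfold G
  have e1 : exp (n / 2 + n * c ^ 2 + n * c) * exp (-(n / 2) * (u - (2 * c + 1)) ^ 2) =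
      exp (n * u ^ 2 / 2 - n * (u - c) ^ 2) * exp (n * (u - c)) := by
    rw [← exp_add, ← exp_add]; congr 1; ring
  have e2 : exp (n / 2 + n * c ^ 2 - n * c) * exp (-(n / 2) * (u - (2 * c - 1)) ^ 2)
      = exp (n * u ^ 2 / 2 - n * (u - c) ^ 2) * exp (-(n * (u - c))) := by
    rw [← exp_add, ← exp_add]; congr 1; ring
  rw [mul_assoc, mul_assoc, e1, e2]
  calc exp (n * u ^ 2 / 2 - n * (u - c) ^ 2) * shc n (u - c)
      ≤ exp (n * u ^ 2 / 2 - n * (u - c) ^ 2) *
          (n * (exp (n * (u - c)) + exp (-(n * (u - c))))) :=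
        mul_le_mul_of_nonneg_left (shc_le hn _) (exp_pos _).le
    _ = _ := by ring

lemma integral_pos_of_pos {h : ℝ → ℝ} (hi : Integrable h) (hp : ∀ x, 0 < h x) :
    0 < ∫ x, h x := by
  rw [integral_pos_iff_support_of_nonneg (fun x => (hp x).le) hi]
  have : Function.support h = Set.univ := by
    ext x; simp [(hp x).ne']
  rw [this]; simp

/-- Normalising a positive integrable function gives a probability density. -/
lemma density_of_pos {h : ℝ → ℝ} (hi : Integrable h) (hp : ∀ x, 0 < h x) :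
    IsProbDensity (fun x => (∫ y, h y)⁻¹ * h x) := by
  have hpos := integral_pos_of_pos hi hp
  refine ⟨fun x => mul_nonneg (inv_nonneg.2 hpos.le) (hp _).le, hi.const_mul _, ?_⟩
  rw [integral_const_mul]
  exact inv_mul_cancel₀ hpos.ne'

/-- The first density. -/
noncomputable def f (x : ℝ) : ℝ := (∫ y, F y)⁻¹ * F x

/-- The second density. -/
noncomputable def g (n c : ℝ) (u : ℝ) : ℝ := (∫ y, G n c y)⁻¹ * G n c u

lemma f_pos (x : ℝ) : 0 < f x :=
  mul_pos (inv_pos.2 (integral_pos_of_pos F_integrable F_pos)) (F_pos _)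

lemma g_pos {n : ℝ} (hn : 0 < n) (c u : ℝ) : 0 < g n c u :=
  mul_pos (inv_pos.2 (integral_pos_of_pos (G_integrable hn c) (G_pos hn c))) (G_pos hn c _)

lemma f_analytic (x : ℝ) : AnalyticAt ℝ f x := analyticAt_const.mul (F_analytic x)

lemma g_analytic (n c u : ℝ) : AnalyticAt ℝ (g n c) u := analyticAt_const.mul (G_analytic n c u)

/-! ### The hyperplane condition -/

lemma prod_F {n : ℕ} (x : Fin n → ℝ) (hx : ∑ j, x j = 0) (t : ℝ) :
    ∏ j, F (x j - t) =
      exp (-(∑ j, x j ^ 2) / 2) * exp (-n * t ^ 2 / 2) * ∏ j, per (x j - t) := by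
  unfold F
  rw [Finset.prod_mul_distrib, ← exp_sum, ← exp_add]
  congr 2
  have h1 : ∀ j, -(x j - t) ^ 2 / 2 = -(x j) ^ 2 / 2 + x j * t - t ^ 2 / 2 := fun j => by ring
  simp only [h1, Finset.sum_sub_distrib, Finset.sum_add_distrib, ← Finset.sum_mul, hx,
    ← Finset.sum_div, Finset.sum_neg_distrib]
  simp
  ring

lemma key_identity (n t : ℝ) :
    exp (-n * t ^ 2) * sinh (n * t) =
      exp (n / 4) / 2 * (exp (-n * (t - 1 / 2) ^ 2) - exp (-n * (t + 1 / 2) ^ 2)) := by
  rw [sinh_eq]
  have e1 : exp (n / 4) * exp (-n * (t - 1 / 2) ^ 2) = exp (-n * t ^ 2) * exp (n * t) := by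
    rw [← exp_add, ← exp_add]; congr 1; ring
  have e2 : exp (n / 4) * exp (-n * (t + 1 / 2) ^ 2) = exp (-n * t ^ 2) * exp (-(n * t)) := by
    rw [← exp_add, ← exp_add]; congr 1; ring
  have : exp (n / 4) / 2 * (exp (-n * (t - 1 / 2) ^ 2) - exp (-n * (t + 1 / 2) ^ 2)) =
    (exp (n / 4) * exp (-n * (t - 1 / 2) ^ 2) - exp (n / 4) * exp (-n * (t + 1 / 2) ^ 2)) / 2 := by
    ring
  rw [this, e1, e2]
  ring

lemma hyperplane {n : ℕ} (hn : 1 ≤ n) (c : ℝ) : HyperplaneCondition n c f (g n c) := by
  intro x hx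
  have hn' : (0 : ℝ) < n := by exact_mod_cast hn
  set Q : ℝ → ℝ := fun t => ∏ j, per (x j - t) with hQ
  have hQc : Continuous Q := by
    have := per_continuous
    rw [hQ]; fun_prop
  have hQ1 : ∀ t, Q (t + 1) = Q t := by
    intro t
    simp only [hQ]
    refine Finset.prod_congr rfl fun j _ => ?_
    rw [← sub_sub, per_sub_one]
  have hQb : ∀ t, ‖Q t‖ ≤ 3 ^ n := by
    intro t
    rw [Real.norm_eq_abs, hQ, Finset.abs_prod]
    calc ∏ j, |per (x j - t)| ≤ ∏ j : Fin n, (3 : ℝ) :=
          Finset.prod_le_prod (fun _ _ => abs_nonneg _)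
            (fun j _ => by rw [abs_of_pos (per_pos _)]; exact per_le _)
      _ = 3 ^ n := by simp
  set H : ℝ → ℝ := fun t => exp (-n * (t - (c + 1 / 2)) ^ 2) * Q t with hH
  have hHi : Integrable H :=
    (integrable_gauss hn' _).mul_bdd (c := 3 ^ n) hQc.aestronglyMeasurable
      (Filter.Eventually.of_forall hQb)
  set A : ℝ := (∫ y, G n c y)⁻¹ * (∫ y, F y)⁻¹ ^ n * exp (-(∑ j, x j ^ 2) / 2) *
    (exp (n / 4) / 2) with hA
  have key : (fun u => (u - c) * g n c u * ∏ j, f (x j - u)) =
      fun u => A * (H u - H (u + 1)) := by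
    funext u
    simp only [f, Finset.prod_mul_distrib, Finset.prod_const, Finset.card_univ, Fintype.card_fin]
    rw [prod_F x hx u]
    unfold g G
    have h2 := key_identity n (u - c)
    have h3 := mul_shc n (u - c)
    have h4 : H (u + 1) = exp (-n * ((u - c) + 1 / 2) ^ 2) * Q u := by
      simp only [hH]
      rw [hQ1]
      congr 3; ring
    have h5 : H u = exp (-n * ((u - c) - 1 / 2) ^ 2) * Q u := by
      simp only [hH]
      congr 3; ring
    have h6 : exp (n * u ^ 2 / 2 - n * (u - c) ^ 2) * exp (-(n : ℝ) * u ^ 2 / 2) =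
        exp (-(n : ℝ) * (u - c) ^ 2) := by
      rw [← exp_add]; congr 1; ring
    rw [h4, h5, hA]
    calc (u - c) * ((∫ y, G n c y)⁻¹ * (exp (n * u ^ 2 / 2 - n * (u - c) ^ 2) *
          shc n (u - c))) * ((∫ y, F y)⁻¹ ^ n *
          (exp (-(∑ j, x j ^ 2) / 2) * exp (-(n : ℝ) * u ^ 2 / 2) * ∏ j, per (x j - u)))
        = (∫ y, G n c y)⁻¹ * (∫ y, F y)⁻¹ ^ n * exp (-(∑ j, x j ^ 2) / 2) *
          ((exp (n * u ^ 2 / 2 - n * (u - c) ^ 2) * exp (-(n : ℝ) * u ^ 2 / 2)) *
            ((u - c) * shc n (u - c))) * Q u := by simp only [hQ]; ring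
      _ = _ := by
          rw [h3, h6, h2]
          ring
  rw [key]
  have hi2 : Integrable (fun u => H (u + 1)) := hHi.comp_add_right 1
  refine ⟨(hHi.sub hi2).const_mul A, ?_⟩
  rw [integral_const_mul, integral_sub hHi hi2, integral_add_right_eq_self H 1, sub_self, mul_zero]

/-! ### The density `f` is not normal -/

lemma not_normal (a : ℝ) (v : NNReal) : ¬ (f =ᵐ[volume] gaussianPDFReal a v) := by
  intro h
  have hc1 : Continuous f := continuous_iff_continuousAt.2 fun x => (f_analytic x).continuousAt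
  have hc2 : Continuous (gaussianPDFReal a v) := by unfold gaussianPDFReal; fun_prop
  have heq : f = gaussianPDFReal a v := (Continuous.ae_eq_iff_eq volume hc1 hc2).1 h
  set K := (∫ y, F y)⁻¹ with hK
  have hKpos : 0 < K := inv_pos.2 (integral_pos_of_pos F_integrable F_pos)
  set B := (√(2 * π * v))⁻¹ with hB
  have hval : ∀ y : ℝ, K * (exp (-y ^ 2 / 2) * per y) = B * exp (-(y - a) ^ 2 / (2 * v)) := by
    intro y
    have := congrFun heq y
    simp only [f, F, gaussianPDFReal] at this
    exact this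
  have hBpos : 0 < B := by
    have h0 := hval 0
    have h1 : 0 < K * (exp (-0 ^ 2 / 2) * per 0) := by
      have := per_pos 0
      positivity
    rw [h0] at h1
    exact pos_of_mul_pos_left h1 (exp_pos _).le
  -- pass to logarithms
  have hlog : ∀ y : ℝ, log K + -y ^ 2 / 2 + log (per y) =
      log B + -(y - a) ^ 2 / (2 * v) := by
    intro y
    have := congrArg log (hval y)
    rw [log_mul hKpos.ne' (mul_pos (exp_pos _) (per_pos _)).ne',
      log_mul (exp_pos _).ne' (per_pos _).ne', log_exp, log_mul hBpos.ne' (exp_pos _).ne',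
      log_exp] at this
    linarith
  have hp0 : per 0 = 3 := by unfold per; norm_num
  have hp1 : per 1 = 3 := by
    rw [← per_sub_one]; simpa using hp0
  have hpm : per (-1) = 3 := by
    have := per_sub_one 0
    rw [zero_sub] at this
    rw [this, hp0]
  have hph : per (1 / 2) = 1 := by
    unfold per
    have : 2 * π * (1 / 2) = π := by ring
    rw [this, cos_pi]; norm_num
  have e0 := hlog 0
  have e1 := hlog 1
  have em := hlog (-1)
  have eh := hlog (1 / 2)
  rw [hp0] at e0
  rw [hp1] at e1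
  rw [hpm] at em
  rw [hph, log_one] at eh
  have hl3 : 0 < log 3 := log_pos (by norm_num)
  set w := (1 / (2 * (v : ℝ))) with hw
  have r : ∀ z : ℝ, -z ^ 2 / (2 * (v : ℝ)) = -z ^ 2 * w := fun z => by rw [hw]; ring
  rw [r] at e0 e1 em eh
  nlinarith

/-- **Main result** (negative answer to Q1). There is a probability density `f` on `ℝ`, everywhere
positive and real-analytic, which agrees almost everywhere with no normal density, and such that
for every `n ≥ 1` and every real `c` there is an everywhere positive real-analytic probability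
density `g` satisfying `(∗)` at every point of the hyperplane `∑ x j = 0`. -/
theorem result :
    ∃ f : ℝ → ℝ, IsProbDensity f ∧ (∀ x, 0 < f x) ∧ (∀ x, AnalyticAt ℝ f x) ∧
      (∀ (a : ℝ) (v : NNReal), ¬ (f =ᵐ[volume] gaussianPDFReal a v)) ∧
      ∀ n : ℕ, 1 ≤ n → ∀ c : ℝ, ∃ g : ℝ → ℝ,
        IsProbDensity g ∧ (∀ u, 0 < g u) ∧ (∀ u, AnalyticAt ℝ g u) ∧
          HyperplaneCondition n c f g := by
  refine ⟨f, density_of_pos F_integrable F_pos, f_pos, f_analytic, not_normal, ?_⟩
  intro n hn c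
  have hn' : (0 : ℝ) < n := by exact_mod_cast hn
  exact ⟨g n c, density_of_pos (G_integrable hn' c) (G_pos hn' c), g_pos hn' c, g_analytic n c,
    hyperplane hn c⟩

end Pool.Agent.Results.MP_d643ae_pr.NotNormal
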